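import Pool.Agent.H230R2.RM.LowerMain

set_option autoImplicit false

/-!
# The random Maker gets a clique of logarithmic size against every Breaker

Against every strategy of Breaker the random Maker gets a clique with at least `(3/5) ln N`
vertices, with probability at least `1 - 15/N`.
-/

namespace Pool.Agent.Results.MP_ecc80d_co.LowerBound

open Filter Pool.Agent.H230R2.RM

theorem result : ∀ᶠ N : ℕ in atTop, ∀ q : ℕ, (q : ℝ) ≤ (3 / 5) * Real.log N →
    1 - 15 / (N : ℝ) ≤ pN N q := lower_bound

end Pool.Agent.Results.MP_ecc80d_co.LowerBound
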